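import Pool.Agent.Run7.h917.LW.Mat

set_option autoImplicit false

universe u

noncomputable section

namespace Pool.Agent.Results.MP_95030e_al.EntriesWithManyTerms

/-- The kernel of right multiplication by the matrix `A` over the complex group ring on row vectors
of length `m` over `l2(G)`: all square-summable `x` with `x A = 0`. -/
def kernel {G : Type u} [Group G] {m l : ℕ} (A : Matrix (Fin m) (Fin l) (G →₀ ℂ)) :
    Set (lp (fun _ : Fin m × G => ℂ) 2) :=
  {x | ∀ (j : Fin l) (g : G),
    ∑ k : Fin m, ∑ h ∈ (A k j).support, x (k, g * h⁻¹) * A k j h = 0}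

open Classical in
/-- The von Neumann dimension of that kernel: the sum over `i` of one minus the square of the
distance from the basis vector at `(i, 1)` to the kernel, that is, the sum of the squared lengths
of the projections of these vectors to the kernel. -/
def kerDim {G : Type u} [Group G] {m l : ℕ} (A : Matrix (Fin m) (Fin l) (G →₀ ℂ)) : ℝ :=
  ∑ i : Fin m, (1 - Metric.infDist
    (lp.single (E := fun _ : Fin m × G => ℂ) 2 (i, (1 : G)) (1 : ℂ)) (kernel A) ^ 2)

/-- The square of the norm of `α` in `ℓ²(G)`. -/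
def normSq {G : Type u} (α : G →₀ ℂ) : ℝ := ∑ g ∈ α.support, ‖α g‖ ^ 2

/-- The identity is the only element of finite order. -/
def TorsionFree (G : Type u) [Group G] : Prop := ∀ g : G, IsOfFinOrder g → g = 1

theorem rkM_eq_kerDim {G : Type u} [Group G] {m l : ℕ} (A : Matrix (Fin m) (Fin l) (G →₀ ℂ)) :
    Run7.h266.AZ.rkM (K := Fin m) (L := Fin l) A = m - kerDim A := by
  refine (Run7.h266.AZ.rkM_eq (K := Fin m) (L := Fin l) A).trans ?_
  rw [Fintype.card_fin]
  congr 1

/-- **The rank of a matrix over a torsion-free group, times the number of terms of its entries.**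

1. For every `C` there is `N` such that for every torsion-free group `G` and every matrix `A` over
   the complex group ring with `m` rows: if `(i_a, j_a)`, `a < p`, are places such that the entries
   at `(i_a, j_b)` are zero for `a < b`, and the entry `α_a` at `(i_a, j_a)` has at least `N`
   terms, all of absolute value at least `μ_a`, then `dim ker A ≤ m - ∑ C μ_a² / ‖α_a‖²`.
   In particular `dim ker A ≤ m - C / n` if some entry has `n ≥ N` terms, all of absolute
   value one.
2. For every `C` there is `N` such that, for such groups, matrices and places: if the coefficients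
   of the entries `α_a` are of absolute value zero or at least one (for example integers), and
   `‖α_a‖² ≥ N` for all `a`, then `dim ker A ≤ m - ∑ C / ‖α_a‖²`. -/
theorem result :
    (∀ C : ℝ, ∃ N : ℕ, ∀ (G : Type u) [Group G], TorsionFree G → ∀ (m l : ℕ)
      (A : Matrix (Fin m) (Fin l) (G →₀ ℂ)) (p : ℕ) (i : Fin p → Fin m) (j : Fin p → Fin l)
      (μ : Fin p → ℝ), (∀ a b, a < b → A (i a) (j b) = 0) → (∀ a, 0 ≤ μ a) →
      (∀ a, ∀ g ∈ (A (i a) (j a)).support, μ a ≤ ‖A (i a) (j a) g‖) →
      (∀ a, N ≤ (A (i a) (j a)).support.card) →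
      kerDim A ≤ m - ∑ a, C * μ a ^ 2 / normSq (A (i a) (j a))) ∧
    (∀ C : ℝ, ∃ N : ℕ, ∀ (G : Type u) [Group G], TorsionFree G → ∀ (m l : ℕ)
      (A : Matrix (Fin m) (Fin l) (G →₀ ℂ)) (p : ℕ) (i : Fin p → Fin m) (j : Fin p → Fin l),
      (∀ a b, a < b → A (i a) (j b) = 0) →
      (∀ a, ∀ g ∈ (A (i a) (j a)).support, 1 ≤ ‖A (i a) (j a) g‖) →
      (∀ a, (N : ℝ) ≤ normSq (A (i a) (j a))) →
      kerDim A ≤ m - ∑ a, C / normSq (A (i a) (j a))) := by
  refine ⟨fun C => ?_, fun C => ?_⟩
  · obtain ⟨N, hN⟩ := Run7.h917.LW.mat_few.{u} C 1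
    refine ⟨N, fun G _ hG m l A p i j μ htri hμ hA hcard => ?_⟩
    have h := hN G (Run7.h917.LW.few_of_torsionFree G hG) (Fin m) (Fin l) A p i j μ htri hμ hA
      hcard
    rw [rkM_eq_kerDim] at h
    unfold normSq
    linarith
  · obtain ⟨N, hN⟩ := Run7.h917.LW.mat_int.{u} C 1
    refine ⟨N, fun G _ hG m l A p i j htri hA hcard => ?_⟩
    have h := hN G (Run7.h917.LW.few_of_torsionFree G hG) (Fin m) (Fin l) A p i j htri hA hcard
    rw [rkM_eq_kerDim] at h
    unfold normSq
    linarith

end Pool.Agent.Results.MP_95030e_al.EntriesWithManyTerms
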