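import Pool.Agent.Run7.h266.AZ.Minor3

set_option autoImplicit false

universe u v

noncomputable section

namespace Pool.Agent.Results.MP_95030e_al.FewCosetsOfAbelianSubgroup

/-- The kernel of right multiplication by the matrix `A` over the complex group ring, with rows
indexed by `K` and columns by `L`, on row vectors over `l2(G)`: all square-summable `x` with
`x A = 0`. -/
def kernel {G : Type u} [Group G] {K L : Type} [Fintype K] (A : K → L → (G →₀ ℂ)) :
    Set (lp (fun _ : K × G => ℂ) 2) :=
  {x | ∀ (j : L) (g : G), ∑ k : K, ∑ h ∈ (A k j).support, x (k, g * h⁻¹) * A k j h = 0}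

open Classical in
/-- The von Neumann dimension of that kernel: the sum over `i` of one minus the square of the
distance from the basis vector at `(i, 1)` to the kernel, that is, the sum of the squared lengths
of the projections of these vectors to the kernel. -/
def kerDim {G : Type u} [Group G] {K L : Type} [Fintype K] (A : K → L → (G →₀ ℂ)) : ℝ :=
  ∑ i : K, (1 - Metric.infDist
    (lp.single (E := fun _ : K × G => ℂ) 2 (i, (1 : G)) (1 : ℂ)) (kernel A) ^ 2)

/-- The von Neumann rank: the number of rows minus the dimension of the kernel. -/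
def rank {G : Type u} [Group G] {K L : Type} [Fintype K] (A : K → L → (G →₀ ℂ)) : ℝ :=
  Fintype.card K - kerDim A

/-- The matrix `B` over the group algebra of `Γ`, with rows indexed by the pairs `(k, i)`, is a
matrix of coefficients of `A` with respect to `φ : Γ → G` and the elements `τ (k, i)` of `G`: for
each `k` the cosets `τ (k, i) φ(Γ)` are distinct, and
`A (k, l) = ∑ i, τ (k, i) φ(B ((k, i), l))`. -/
def IsCoeff {G : Type u} [Group G] {Γ : Type v} [Group Γ] (φ : Γ →* G) {K L : Type} {κ : ℕ}
    (τ : K → Fin κ → G) (B : K × Fin κ → L → MonoidAlgebra ℂ Γ) (A : K → L → (G →₀ ℂ)) : Prop :=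
  (∀ k i i', (τ k i)⁻¹ * τ k i' ∈ φ.range → i = i') ∧
  (∀ k l x, A k l x = ∑ i, Finsupp.mapDomain φ (B (k, i) l).coeff ((τ k i)⁻¹ * x))

/-- The minor of `B` in the rows `c 0, c 1, …` and the columns `d 0, d 1, …`. -/
def minor {Γ : Type v} [CommGroup Γ] {K L : Type} (B : K → L → MonoidAlgebra ℂ Γ) {r : ℕ}
    (c : Fin r → K) (d : Fin r → L) : MonoidAlgebra ℂ Γ :=
  (Matrix.of fun a b => B (c a) (d b)).det

theorem single_inst {G : Type u} [Group G] {K : Type} (d1 d2 : DecidableEq (K × G)) (i : K) :
    @lp.single (K × G) (fun _ => ℂ) _ d1 2 (i, (1 : G)) (1 : ℂ)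
      = @lp.single (K × G) (fun _ => ℂ) _ d2 2 (i, (1 : G)) (1 : ℂ) := by
  rw [Subsingleton.elim d1 d2]

theorem rank_eq {G : Type u} [Group G] {K L : Type} [Fintype K] [Fintype L] [DecidableEq K]
    [DecidableEq L] (A : K → L → (G →₀ ℂ)) : rank A = Run7.h266.AZ.rkM A := by
  have h : kerDim A = Pool.Agent.W649.ZL.kerDimM A := by
    unfold kerDim Pool.Agent.W649.ZL.kerDimM
    refine Finset.sum_congr rfl fun i _ => ?_
    exact congrArg (fun v => 1 - Metric.infDist v (kernel A) ^ 2) (single_inst _ _ i)
  rw [Run7.h266.AZ.rkM_eq, ← h]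
  rfl

/-- **Matrices with entries in few cosets of a torsion-free commutative subgroup.** Let `G` be any
group (for example a torsion-free one), `Γ` a torsion-free commutative group, `φ : Γ → G` an
injective homomorphism (for example `Γ` infinite cyclic, generated by an element of infinite
order of `G`), and `A` a matrix over the complex group ring of `G`.

1. If some submatrix of `A` has a matrix of coefficients `B` over the group algebra of `Γ`, with
   respect to `κ` cosets for each row, which has a nonzero minor of size `r`, then the von Neumann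
   rank of `A` is at least `r / κ`.
2. If `A` itself has such a matrix of coefficients whose minors of size `r + 1` all vanish, then the
   rank of `A` is at most `r`.
3. So if `r` is the rank over the field of fractions of a matrix of coefficients `B` of `A` (there is
   a nonzero minor of size `r`, and all larger minors vanish), then the rank of `A` lies between
   `r / κ` and `r`, and it is equal to the integer `r` if `κ = 1`. -/
theorem result {G : Type u} [Group G] {Γ : Type v} [CommGroup Γ] (φ : Γ →* G)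
    (hφ : Function.Injective φ) (hΓ : ∀ γ : Γ, γ ≠ 1 → ¬ IsOfFinOrder γ) {K L : Type} [Fintype K]
    [Fintype L] (A : K → L → (G →₀ ℂ)) (κ r : ℕ) :
    (∀ {K' L' : Type} [Fintype K'] [Fintype L'] (e : K' → K) (g : L' → L) (τ : K' → Fin κ → G)
      (B : K' × Fin κ → L' → MonoidAlgebra ℂ Γ), IsCoeff φ τ B (fun k l => A (e k) (g l)) →
      (∃ (c : Fin r → K' × Fin κ) (d : Fin r → L'), minor B c d ≠ 0) → r / κ ≤ rank A) ∧
    (∀ (τ : K → Fin κ → G) (B : K × Fin κ → L → MonoidAlgebra ℂ Γ), IsCoeff φ τ B A →
      (∀ (c : Fin (r + 1) → K × Fin κ) (d : Fin (r + 1) → L), minor B c d = 0) → rank A ≤ r) ∧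
    (∀ (τ : K → Fin κ → G) (B : K × Fin κ → L → MonoidAlgebra ℂ Γ), IsCoeff φ τ B A →
      (∃ (c : Fin r → K × Fin κ) (d : Fin r → L), minor B c d ≠ 0) →
      (∀ (c : Fin (r + 1) → K × Fin κ) (d : Fin (r + 1) → L), minor B c d = 0) →
      r / κ ≤ rank A ∧ rank A ≤ r ∧ (κ = 1 → rank A = r)) := by
  classical
  have low : ∀ {K' L' : Type} [Fintype K'] [Fintype L'] (e : K' → K) (g : L' → L)
      (τ : K' → Fin κ → G) (B : K' × Fin κ → L' → MonoidAlgebra ℂ Γ),
      IsCoeff φ τ B (fun k l => A (e k) (g l)) →
      (∃ (c : Fin r → K' × Fin κ) (d : Fin r → L'), minor B c d ≠ 0) → r / κ ≤ rank A := by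
    intro K' L' _ _ e g τ B hB ⟨c, d, hcd⟩
    have h := Run7.h266.AZ.lower φ hφ hΓ A e g τ hB.1 B hB.2 c d hcd
    rw [← rank_eq] at h
    have hnn : 0 ≤ rank A := by
      rw [rank_eq]
      exact Pool.Agent.W649.ZL.vd_nonneg _
    rcases Nat.eq_zero_or_pos κ with h0 | h0
    · rw [h0, Nat.cast_zero, div_zero]
      exact hnn
    · have hκ : (0 : ℝ) < κ := by exact_mod_cast h0
      rw [div_le_iff₀ hκ]
      linarith
  have up : ∀ (τ : K → Fin κ → G) (B : K × Fin κ → L → MonoidAlgebra ℂ Γ), IsCoeff φ τ B A →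
      (∀ (c : Fin (r + 1) → K × Fin κ) (d : Fin (r + 1) → L), minor B c d = 0) → rank A ≤ r := by
    intro τ B hB hv
    have h := Run7.h266.AZ.upper φ hφ hΓ A τ hB.1 B hB.2 r hv
    rw [← rank_eq] at h
    exact h
  refine ⟨low, up, ?_⟩
  intro τ B hB hc hv
  have h1 := low id id τ B hB hc
  have h2 := up τ B hB hv
  refine ⟨h1, h2, ?_⟩
  intro hκ
  rw [hκ, Nat.cast_one, div_one] at h1
  exact le_antisymm h2 h1

end Pool.Agent.Results.MP_95030e_al.FewCosetsOfAbelianSubgroup
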