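import Pool.Agent.Run7.h596.AZ.Pat

set_option autoImplicit false

open scoped Pointwise

universe u

noncomputable section

namespace Pool.Agent.Results.MP_95030e_al.RelationsAndGrowth

/-- The kernel of right multiplication by the matrix `A` over the complex group ring on row vectors
of length `m` over `l2(G)`: all square-summable `x` with `x A = 0`. -/
def kernel {G : Type u} [Group G] {m l : ℕ} (A : Matrix (Fin m) (Fin l) (G →₀ ℂ)) :
    Set (lp (fun _ : Fin m × G => ℂ) 2) :=
  {x | ∀ (j : Fin l) (g : G),
    ∑ k : Fin m, ∑ h ∈ (A k j).support, x (k, g * h⁻¹) * A k j h = 0}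

open Classical in
/-- The von Neumann dimension of that kernel: the sum over `i` of one minus the square of the
distance from the basis vector at `(i, 1)` to the kernel, that is, the sum of the squared lengths
of the projections of these vectors to the kernel. -/
def kerDim {G : Type u} [Group G] {m l : ℕ} (A : Matrix (Fin m) (Fin l) (G →₀ ℂ)) : ℝ :=
  ∑ i : Fin m, (1 - Metric.infDist
    (lp.single (E := fun _ : Fin m × G => ℂ) 2 (i, (1 : G)) (1 : ℂ)) (kernel A) ^ 2)

/-- The space of the row vectors `x` over the group ring with `x A = 0` whose entry at each place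
`k` has its terms in the finite set `T (y k)`. -/
def relations {G : Type u} [Group G] {m l : ℕ} (A : Matrix (Fin m) (Fin l) (G →₀ ℂ))
    (y : Fin m → G) (T : Finset G) : Submodule ℂ ((Fin m × G) →₀ ℂ) where
  carrier := {x | (∀ (k : Fin m) (g : G), g * (y k)⁻¹ ∉ T → x (k, g) = 0) ∧
    ∀ (j : Fin l) (g : G), ∑ k : Fin m, ∑ h ∈ (A k j).support, x (k, g * h⁻¹) * A k j h = 0}
  add_mem' := (Run7.h596.AZ.rel (K := Fin m) (L := Fin l) A y T).add_mem'
  zero_mem' := (Run7.h596.AZ.rel (K := Fin m) (L := Fin l) A y T).zero_mem'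
  smul_mem' := (Run7.h596.AZ.rel (K := Fin m) (L := Fin l) A y T).smul_mem'

open Classical in
/-- The set of all group elements which occur in the matrix with the entries `y i * A i j * z j`,
the rows of `A` being multiplied on the left and the columns on the right by group elements. -/
def occur {G : Type u} [Group G] {m l : ℕ} (A : Matrix (Fin m) (Fin l) (G →₀ ℂ)) (y : Fin m → G)
    (z : Fin l → G) : Finset G :=
  Finset.univ.biUnion (fun i => Finset.univ.biUnion (fun j =>
    (A i j).support.image (fun t => y i * t * z j)))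

/-- The rows of `A`, multiplied on the left by the `y i`, are linearly independent over the group
ring of the subgroup `H`. -/
def RowsIndependent {G : Type u} [Group G] {m l : ℕ} (H : Subgroup G)
    (A : Matrix (Fin m) (Fin l) (G →₀ ℂ)) (y : Fin m → G) : Prop :=
  ∀ T : Finset G, (∀ t ∈ T, t ∈ H) → relations A y T = ⊥

theorem rkM_eq_kerDim {G : Type u} [Group G] {m l : ℕ} (A : Matrix (Fin m) (Fin l) (G →₀ ℂ)) :
    Run7.h266.AZ.rkM (K := Fin m) (L := Fin l) A = m - kerDim A := by
  refine (Run7.h266.AZ.rkM_eq (K := Fin m) (L := Fin l) A).trans ?_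
  rw [Fintype.card_fin]
  congr 1

theorem rel_eq {G : Type u} [Group G] {m l : ℕ} (A : Matrix (Fin m) (Fin l) (G →₀ ℂ))
    (y : Fin m → G) (T : Finset G) :
    Run7.h596.AZ.rel (K := Fin m) (L := Fin l) A y T = relations A y T := rfl

theorem mem_occur {G : Type u} [Group G] {m l : ℕ} (A : Matrix (Fin m) (Fin l) (G →₀ ℂ))
    (y : Fin m → G) (z : Fin l → G) (i : Fin m) (j : Fin l) (t : G) (ht : t ∈ (A i j).support) :
    y i * t * z j ∈ occur A y z := by
  classical
  unfold occur
  exact Finset.mem_biUnion.2 ⟨i, Finset.mem_univ i,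
    Finset.mem_biUnion.2 ⟨j, Finset.mem_univ j, Finset.mem_image.2 ⟨t, ht, rfl⟩⟩⟩

/-- Independence over the group ring of the whole group does not depend on the factors `y`. -/
theorem independent_top {G : Type u} [Group G] {m l : ℕ} (A : Matrix (Fin m) (Fin l) (G →₀ ℂ))
    (h : RowsIndependent ⊤ A (fun _ => 1)) (y : Fin m → G) (T : Finset G) :
    relations A y T = ⊥ := by
  classical
  rw [eq_bot_iff]
  intro x hx
  rw [← h (Finset.univ.biUnion (fun k => T.image (fun t => t * y k)))
    (fun t _ => Subgroup.mem_top t)]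
  refine ⟨fun k g hg => hx.1 k g (fun h1 => hg ?_), hx.2⟩
  rw [Finset.mem_biUnion]
  refine ⟨k, Finset.mem_univ k, Finset.mem_image.2 ⟨g * (y k)⁻¹, h1, ?_⟩⟩
  rw [inv_mul_cancel_right, inv_one, mul_one]

open Classical in
/-- **Kernel dimension, relations over the group ring, and growth.** Let `A` be an `m × l` matrix
over the complex group ring of a group `G`; for `y i`, `z j` in `G` let `S` be the set of all group
elements which occur in the matrix `(y i * A i j * z j)`.

1. For every finite subset `T` of `G`, let `r` be the dimension of the space of the row vectors `x`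
   over the group ring with `x A = 0` and `x i` supported in `T (y i)`. Then `r ≤ |T| dim ker A`
   and `m |T| ≤ r + |T S| (m - dim ker A)`.
2. If the rows of `A`, multiplied by the `y i`, are linearly independent over the group ring of the
   subgroup `H`, then `dim ker A ≤ m (1 - |T| / |T S|)` for all finite nonempty `T ⊆ H`.
3. If the rows of `A` are linearly independent over the group ring of `G`, then
   `m ^ k ≤ |S ^ k| (m - dim ker A) ^ k` for all `k`: the rank `m - dim ker A` is at least `m / ω`,
   where `ω` is the growth rate of `S`.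
4. Let the entries `α a` at the places `(i a, j a)` be not zero and the entries at `(i a, j b)` be
   zero for `a < b`. Then the sum of the `|T a| / |T a * supp (α a)|` is at most `m - dim ker A`,
   for all finite subsets `T a` of subgroups `H a` whose group rings have no zero divisors.
5. In particular this is so for `T a = {1, g a, …, g a ^ (k a - 1)}`, `g a` of infinite order. -/
theorem result {G : Type u} [Group G] {m l : ℕ} (A : Matrix (Fin m) (Fin l) (G →₀ ℂ)) :
    (∀ (y : Fin m → G) (z : Fin l → G) (T : Finset G),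
      (Module.finrank ℂ (relations A y T) : ℝ) ≤ T.card * kerDim A ∧
      (m * T.card : ℝ) ≤
        Module.finrank ℂ (relations A y T) + (T * occur A y z).card * (m - kerDim A)) ∧
    (∀ (H : Subgroup G) (y : Fin m → G) (z : Fin l → G), RowsIndependent H A y →
      ∀ T : Finset G, T.Nonempty → (∀ t ∈ T, t ∈ H) →
      kerDim A ≤ m * (1 - (T.card : ℝ) / (T * occur A y z).card)) ∧
    (RowsIndependent ⊤ A (fun _ => 1) → ∀ (y : Fin m → G) (z : Fin l → G) (k : ℕ),
      (m : ℝ) ^ k ≤ ((occur A y z) ^ k).card * (m - kerDim A) ^ k) ∧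
    (∀ (p : ℕ) (i : Fin p → Fin m) (j : Fin p → Fin l), (∀ a, A (i a) (j a) ≠ 0) →
      (∀ a b, a < b → A (i a) (j b) = 0) →
      ∀ (H : Fin p → Subgroup G), (∀ a, NoZeroDivisors (MonoidAlgebra ℂ (H a))) →
      ∀ (T : Fin p → Finset G), (∀ a, ∀ t ∈ T a, t ∈ H a) →
      ∑ a, ((T a).card : ℝ) / ((T a) * (A (i a) (j a)).support).card ≤ m - kerDim A) ∧
    (∀ (p : ℕ) (i : Fin p → Fin m) (j : Fin p → Fin l), (∀ a, A (i a) (j a) ≠ 0) →
      (∀ a b, a < b → A (i a) (j b) = 0) →
      ∀ (g : Fin p → G), (∀ a, ¬ IsOfFinOrder (g a)) → ∀ k : Fin p → ℕ,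
      ∑ a, (k a : ℝ) / (((Finset.range (k a)).image (fun n => g a ^ n)) *
        (A (i a) (j a)).support).card ≤ m - kerDim A) := by
  have key : ∀ (y : Fin m → G) (z : Fin l → G) (T : Finset G), (m * T.card : ℝ) ≤
      Module.finrank ℂ (relations A y T) + (T * occur A y z).card * (m - kerDim A) := by
    intro y z T
    have h := Run7.h596.AZ.le_rel_add (K := Fin m) (L := Fin l) A y z (occur A y z) T
      (mem_occur A y z)
    rw [rkM_eq_kerDim, Fintype.card_fin, rel_eq] at h
    exact h
  have pat : ∀ (p : ℕ) (i : Fin p → Fin m) (j : Fin p → Fin l), (∀ a, A (i a) (j a) ≠ 0) →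
      (∀ a b, a < b → A (i a) (j b) = 0) →
      ∀ (H : Fin p → Subgroup G), (∀ a, NoZeroDivisors (MonoidAlgebra ℂ (H a))) →
      ∀ (T : Fin p → Finset G), (∀ a, ∀ t ∈ T a, t ∈ H a) →
      ∑ a, ((T a).card : ℝ) / ((T a) * (A (i a) (j a)).support).card ≤ m - kerDim A := by
    intro p i j hne h0 H hH T hT
    have h := Run7.h596.AZ.pattern (K := Fin m) (L := Fin l) A p i j h0 hne H hH T hT
    rw [rkM_eq_kerDim] at h
    exact h
  refine ⟨fun y z T => ⟨?_, key y z T⟩, ?_, ?_, pat, ?_⟩
  · have h := Run7.h596.AZ.rel_le_ker (K := Fin m) (L := Fin l) A y T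
    rw [rkM_eq_kerDim, Fintype.card_fin, rel_eq] at h
    have e : (m : ℝ) - (m - kerDim A) = kerDim A := by ring
    rw [e] at h
    exact h
  · intro H y z hH T hT hTH
    have h := key y z T
    rw [hH T hTH, finrank_bot, Nat.cast_zero, zero_add] at h
    by_cases hS : (occur A y z).Nonempty
    · have hpos : (0 : ℝ) < (T * occur A y z).card := by
        exact_mod_cast (hT.mul hS).card_pos
      have h2 : m * ((T.card : ℝ) / (T * occur A y z).card) ≤ m - kerDim A := by
        rw [← mul_div_assoc, div_le_iff₀ hpos]
        linarith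
      linarith
    · have hS' : occur A y z = ∅ := Finset.not_nonempty_iff_eq_empty.1 hS
      rw [hS', Finset.mul_empty, Finset.card_empty, Nat.cast_zero, zero_mul] at h
      have hT' : (0 : ℝ) < T.card := by exact_mod_cast hT.card_pos
      have hm : (m : ℝ) = 0 := by
        have h0 : (0 : ℝ) ≤ m := Nat.cast_nonneg m
        nlinarith
      have hm' : m = 0 := by exact_mod_cast hm
      subst hm'
      simp [kerDim]
  · intro hind y z k
    have h := Run7.h596.AZ.growth (K := Fin m) (L := Fin l) A y z (occur A y z)
      (mem_occur A y z) (fun T => independent_top A hind y T) k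
    rw [rkM_eq_kerDim, Fintype.card_fin] at h
    exact h
  · intro p i j hne h0 g hg k
    have h := pat p i j hne h0 (fun a => Subgroup.zpowers (g a))
      (fun a => Run7.h596.AZ.nzd_zpowers (g a) (hg a))
      (fun a => (Finset.range (k a)).image (fun n => g a ^ n)) (by
        intro a t ht
        obtain ⟨n, _, rfl⟩ := Finset.mem_image.1 ht
        exact Subgroup.npow_mem_zpowers (g a) n)
    refine le_trans (le_of_eq ?_) h
    refine Finset.sum_congr rfl fun a _ => ?_
    rw [Finset.card_image_of_injective _ (injective_pow_iff_not_isOfFinOrder.2 (hg a)),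
      Finset.card_range]

end Pool.Agent.Results.MP_95030e_al.RelationsAndGrowth
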