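import Pool.Agent.Run7.h266.AZ.Mix

set_option autoImplicit false

universe u

noncomputable section

namespace Pool.Agent.Results.MP_95030e_al.RowsAndColumns

/-- The kernel of right multiplication by the matrix `A` over the complex group ring on row vectors
of length `m` over `l2(G)`: all square-summable `x` with `x A = 0`. -/
def kernel {G : Type u} [Group G] {m l : ℕ} (A : Matrix (Fin m) (Fin l) (G →₀ ℂ)) :
    Set (lp (fun _ : Fin m × G => ℂ) 2) :=
  {x | ∀ (j : Fin l) (g : G),
    ∑ k : Fin m, ∑ h ∈ (A k j).support, x (k, g * h⁻¹) * A k j h = 0}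

open Classical in
/-- The von Neumann dimension of that kernel: the sum over `i` of one minus the square of the
distance from the basis vector at `(i, 1)` to the kernel, that is, the sum of the squared lengths
of the projections of these vectors to the kernel. -/
def kerDim {G : Type u} [Group G] {m l : ℕ} (A : Matrix (Fin m) (Fin l) (G →₀ ℂ)) : ℝ :=
  ∑ i : Fin m, (1 - Metric.infDist
    (lp.single (E := fun _ : Fin m × G => ℂ) 2 (i, (1 : G)) (1 : ℂ)) (kernel A) ^ 2)

open Classical in
/-- The set of all group elements which occur in the members of a finite family. -/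
def occur {G : Type u} {k : ℕ} (C : Fin k → (G →₀ ℂ)) : Finset G :=
  Finset.univ.biUnion (fun a => (C a).support)

theorem rkM_eq_kerDim {G : Type u} [Group G] {m l : ℕ} (A : Matrix (Fin m) (Fin l) (G →₀ ℂ)) :
    Run7.h266.AZ.rkM (K := Fin m) (L := Fin l) A = m - kerDim A := by
  refine (Run7.h266.AZ.rkM_eq (K := Fin m) (L := Fin l) A).trans ?_
  rw [Fintype.card_fin]
  congr 1

theorem final (n k : ℕ) (hk : k ≤ n) (hk0 : 0 < k) (d m r : ℝ) (hr : r = m - d)
    (h : (n : ℝ) ^ 2 * (1 - r) ≤ ((n : ℝ) - 1) * (n - k)) :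
    d ≤ m - 1 + (1 - 1 / (n : ℝ)) * (1 - k / n) := by
  have hn : (0 : ℝ) < n := by exact_mod_cast hk0.trans_le hk
  have h2 : (1 - 1 / (n : ℝ)) * (1 - k / n) = ((n : ℝ) - 1) * (n - k) / (n : ℝ) ^ 2 := by
    field_simp
  have h3 : 1 - r ≤ ((n : ℝ) - 1) * (n - k) / (n : ℝ) ^ 2 := by
    rw [le_div_iff₀ (by positivity)]
    linarith
  rw [h2]
  linarith

/-- **The rank of a matrix over a torsion-free group and the number of terms.** Let `G` be a
torsion-free group and `A` an `m × l` matrix over the complex group ring of `G`.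

1. If some row of `A` has `k ≥ 1` linearly independent (over `ℂ`) entries in which only `n` group
   elements occur, then the kernel of right multiplication by `A` on `ℓ²(G)^m` has dimension at most
   `m - 1 + (1 - 1/n) (1 - k/n)`.
2. The same holds for columns.
3. If `i_a`, `j_a` (`a < p`) are such that the entries at `(i_a, j_a)` are not zero and the entries
   at `(i_a, j_b)` are zero for `a < b`, then the dimension of the kernel is at most
   `m - ∑ (2 n_a - 1) / n_a²`, where `n_a` is the number of terms of the entry at `(i_a, j_a)`. -/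
theorem result {G : Type u} [Group G] (htf : ∀ g : G, IsOfFinOrder g → g = 1) {m l : ℕ}
    (A : Matrix (Fin m) (Fin l) (G →₀ ℂ)) :
    (∀ (i : Fin m) (k n : ℕ) (c : Fin k → Fin l), 0 < k →
      LinearIndependent ℂ (fun a => A i (c a)) → n = (occur (fun a => A i (c a))).card →
      kerDim A ≤ m - 1 + (1 - 1 / (n : ℝ)) * (1 - k / n)) ∧
    (∀ (j : Fin l) (k n : ℕ) (c : Fin k → Fin m), 0 < k →
      LinearIndependent ℂ (fun a => A (c a) j) → n = (occur (fun a => A (c a) j)).card →
      kerDim A ≤ m - 1 + (1 - 1 / (n : ℝ)) * (1 - k / n)) ∧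
    (∀ (p : ℕ) (i : Fin p → Fin m) (j : Fin p → Fin l), (∀ a, A (i a) (j a) ≠ 0) →
      (∀ a b, a < b → A (i a) (j b) = 0) →
      kerDim A ≤ m - ∑ a, (2 * ((A (i a) (j a)).support.card : ℝ) - 1) /
        ((A (i a) (j a)).support.card : ℝ) ^ 2) := by
  classical
  refine ⟨?_, ?_, ?_⟩
  · intro i k n c hk0 hC hn
    have h := Run7.h266.AZ.row_bound (K := Fin m) (L := Fin l) A i k hk0 c hC
      (occur (fun a => A i (c a))) (fun a => by
        intro x hx
        unfold occur
        exact Finset.mem_biUnion.2 ⟨a, Finset.mem_univ a, hx⟩)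
    have h2 := h.2.1 (fun u hu hfin => absurd (htf u hfin) (Run7.h266.AZ.quo_ne_one _ u hu))
    rw [← hn] at h h2
    exact final n k h.1 hk0 _ _ _ (rkM_eq_kerDim A) h2
  · intro j k n c hk0 hC hn
    have hcard : ((occur (fun a => A (c a) j)).image (·⁻¹)).card = n := by
      rw [Finset.card_image_of_injective _ inv_injective, hn]
    have h := Run7.h266.AZ.col_bound (K := Fin m) (L := Fin l) A j k hk0 c hC
      ((occur (fun a => A (c a) j)).image (·⁻¹)) (fun a => by
        intro x hx
        rw [Run7.h266.AZ.mem_support_iv] at hx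
        refine Finset.mem_image.2 ⟨x⁻¹, ?_, inv_inv x⟩
        unfold occur
        exact Finset.mem_biUnion.2 ⟨a, Finset.mem_univ a, hx⟩)
    have h2 := h.2.1 (fun u hu hfin => absurd (htf u hfin) (Run7.h266.AZ.quo_ne_one _ u hu))
    rw [hcard] at h h2
    exact final n k h.1 hk0 _ _ _ (rkM_eq_kerDim A) h2
  · intro p i j h0 htri
    have h := Run7.h266.AZ.triangular (K := Fin m) (L := Fin l) A p i j htri
    rw [rkM_eq_kerDim] at h
    have h1 : ∀ a, (2 * ((A (i a) (j a)).support.card : ℝ) - 1) /
        ((A (i a) (j a)).support.card : ℝ) ^ 2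
        ≤ Run7.h266.AZ.rk (Run7.h266.AZ.iv (A (i a) (j a))) := by
      intro a
      rw [Run7.h266.AZ.rk_iv_cj]
      have hne : Run7.h266.AZ.cj (A (i a) (j a)) ≠ 0 := by
        rw [← Finsupp.support_nonempty_iff, Run7.h266.AZ.cj_support]
        exact Finsupp.support_nonempty_iff.2 (h0 a)
      have h2 := Run7.h266.AZ.two_over_n (Run7.h266.AZ.cj (A (i a) (j a))) hne
        (fun u hu hfin => absurd (htf u hfin) (Run7.h266.AZ.quo_ne_one _ u hu))
      rw [Run7.h266.AZ.cj_support] at h2
      have hpos : (0 : ℝ) < ((A (i a) (j a)).support.card : ℝ) := by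
        exact_mod_cast (Finsupp.support_nonempty_iff.2 (h0 a)).card_pos
      rw [div_le_iff₀ (by positivity)]
      exact h2
    have h2 := Finset.sum_le_sum (s := Finset.univ) fun a _ => h1 a
    linarith

end Pool.Agent.Results.MP_95030e_al.RowsAndColumns
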